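import Mathlib

namespace Pool.Agent.Results.MP_aa3754_al.Q1

variable {F V : Type} [Field F] [AddCommGroup V] [Module F V]

/-- `N` is a cubic form. -/
def IsCubicForm (N : V → F) : Prop :=
  ∃ M : V → V → F,
    (∀ (x y : V) (l : F), N (x + l • y) = N x + l * M x y + l ^ 2 * M y x + l ^ 3 * N y) ∧
    (∀ y, ∃ Q : QuadraticForm F V, ∀ x, M x y = Q x) ∧ ∀ x, IsLinearMap F (M x)

/-- Complete linearization. -/
def lin (N : V → F) (v u w : V) : F :=
  N (v + u + w) - N (v + u) - N (v + w) - N (u + w) + N u + N v + N w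

/-- The trace `T(r) = N(r,c,c)/2`. -/
def tr (N : V → F) (c r : V) : F := lin N r c c / 2

/-- The form `(r,q) = T(r)T(q) - S(r,q) - Δ(r,q)`. -/
def form (N : V → F) (D : LinearMap.BilinForm F V) (c r q : V) : F :=
  tr N c r * tr N c q - lin N r q c - D r q

/-- The sharp product. -/
def sp (sh : QuadraticMap F V V) (r q : V) : V := sh (r + q) - sh r - sh q

/-- Generalized sharped cubic form. -/
def IsGSCF (N : V → F) (D : LinearMap.BilinForm F V) (sh : QuadraticMap F V V) (c : V) : Prop :=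
  IsCubicForm N ∧ N c = 1 ∧ (∀ r q, D r q = D q r) ∧ (∀ r, D r c = 0) ∧
    (∀ r q, form N D c (sp sh r q) r + form N D c (sh r) q = 3 * (lin N r r q / 2)) ∧
    (∀ r, sh (sh r) = (N r + D (sh r) r) • r) ∧ ∀ r, sp sh c r = tr N c r • c - r

/-- The identity `(⋆)`. -/
def Star (N : V → F) (D : LinearMap.BilinForm F V) (sh : QuadraticMap F V V) (c : V) : Prop :=
  ∀ r q s, D (sp sh r q) s - D r (sp sh q s) = (1 / 3) * (tr N c s * D r q - tr N c r * D q s)

/-- The bilinear map behind the sharp map. -/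
def B (F : Type) [Field F] : LinearMap.BilinMap F (Fin 3 → F) (Fin 3 → F) :=
  LinearMap.mk₂ F (fun x y => ![x 0 * y 0, -(x 0 * y 1), x 1 * y 1 - x 0 * y 2])
    (fun x x' y => by ext i; fin_cases i <;> simp <;> ring)
    (fun a x y => by ext i; fin_cases i <;> simp <;> ring)
    (fun x y y' => by ext i; fin_cases i <;> simp <;> ring)
    (fun a x y => by ext i; fin_cases i <;> simp <;> ring)

theorem result (F : Type) [Field F] (h2 : (2 : F) ≠ 0) (_h3 : (3 : F) ≠ 0) :
    ∃ (N : (Fin 3 → F) → F) (D : LinearMap.BilinForm F (Fin 3 → F))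
      (sh : QuadraticMap F (Fin 3 → F) (Fin 3 → F)) (c : Fin 3 → F),
      IsGSCF N D sh c ∧ ¬ Star N D sh c := by
  let N : (Fin 3 → F) → F := fun x => x 0 ^ 3 + x 0 * x 2 ^ 2 - x 1 ^ 2 * x 2
  let D : LinearMap.BilinForm F (Fin 3 → F) := LinearMap.mk₂ F (fun x y => x 2 * y 2)
    (fun x x' y => by simp; ring) (fun a x y => by simp; ring)
    (fun x y y' => by simp; ring) (fun a x y => by simp; ring)
  have hD : ∀ x y, D x y = x 2 * y 2 := fun _ _ => rfl
  have hs : ∀ x, (B F).toQuadraticMap x = ![x 0 * x 0, -(x 0 * x 1), x 1 * x 1 - x 0 * x 2] :=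
    fun _ => rfl
  have ht : ∀ r, tr N ![1, 0, 0] r = 3 * r 0 := by
    intro r
    simp only [tr, lin, N, Pi.add_apply]
    simp
    field_simp
    ring
  refine ⟨N, D, (B F).toQuadraticMap, ![1, 0, 0], ⟨⟨fun x y => 3 * x 0 ^ 2 * y 0 + y 0 * x 2 ^ 2
    + 2 * x 0 * x 2 * y 2 - 2 * x 1 * y 1 * x 2 - x 1 ^ 2 * y 2, ?_, ?_, ?_⟩, ?_, ?_, ?_, ?_, ?_, ?_⟩, ?_⟩
  · intro x y l
    simp [N]
    ring
  · intro y
    refine ⟨(3 * y 0) • QuadraticMap.proj 0 0 + y 0 • QuadraticMap.proj 2 2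
      + (2 * y 2) • QuadraticMap.proj 0 2 - (2 * y 1) • QuadraticMap.proj 1 2
      - y 2 • QuadraticMap.proj 1 1, fun x => ?_⟩
    simp
    ring
  · intro x
    exact ⟨fun y y' => by simp; ring, fun a y => by simp; ring⟩
  · simp [N]
  · intro r q
    rw [hD, hD, mul_comm]
  · intro r
    simp [hD]
  · intro r q
    simp only [form, ht, hD, sp, hs, lin, N, Pi.add_apply, Pi.sub_apply]
    simp
    field_simp
    ring
  · intro r
    rw [hD, hs, hs]
    ext i
    fin_cases i <;> simp [N] <;> ring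
  · intro r
    rw [ht]
    simp only [sp, hs]
    ext i
    fin_cases i <;> simp <;> ring
  · intro h
    have := h ![0, 1, 0] ![0, 1, 0] ![0, 0, 1]
    simp only [ht, hD, sp, hs] at this
    simp at this
    apply h2
    linear_combination this

end Pool.Agent.Results.MP_aa3754_al.Q1
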